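import Pool.Agent.N20.EN.Stm
import Pool.Agent.Y210.NV2.TRL
import Pool.Agent.Y624.NV.Trn

/-!
# Project EN, leaf TR: passing to the subgroup `H` (helper973)
-/

set_option autoImplicit false

open scoped Classical

noncomputable section

namespace Pool.Agent.N973.ENTR

open Pool.Agent.Y63.NV Pool.Agent.N20.EN
open Pool.Agent.Y210.NV2 (irrTrace_comp)
open Pool.Agent.Y624.NV (norm_fwd norm_bwd nEquiv pg_iff centralValue_comp isWt_iff)
open Pool.Agent.Y63.AWC (IsIrreducibleCharacter)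

theorem orbL_congr {F : Type} [Field F] {Γ₁ Γ₂ : Type} [Group Γ₁] [Group Γ₂]
    (N₁ M₁ H₁ : Subgroup Γ₁) (N₂ M₂ H₂ : Subgroup Γ₂) (z₁ : Γ₁ → F) (z₂ : Γ₂ → F) (c : F)
    (e : N₁ ≃* N₂) (hz : ∀ x : N₁, z₂ (e x) = z₁ x)
    (hinv : ∀ φ : N₂ → F, IsInvUnder M₂ φ ↔ IsInvUnder M₁ (fun x => φ (e x)))
    (hcj : ∀ φ φ' : N₂ → F, (∃ h ∈ H₂, CjF h φ φ') ↔
      ∃ h ∈ H₁, CjF h (fun x => φ (e x)) (fun x => φ' (e x))) :
    OrbL N₁ M₁ H₁ z₁ c = OrbL N₂ M₂ H₂ z₂ c := by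
  have key : ∀ φ : N₂ → F,
      (IsIrrTrace φ ∧ IsInvUnder M₂ φ ∧ ∀ x : N₂, ∑ᶠ g : N₂, z₂ g * φ (g * x) = c * φ x) ↔
      (IsIrrTrace (fun x => φ (e x)) ∧ IsInvUnder M₁ (fun x => φ (e x)) ∧
        ∀ x : N₁, ∑ᶠ g : N₁, z₁ g * φ (e (g * x)) = c * φ (e x)) := by
    intro φ
    have h1 : IsIrrTrace φ ↔ IsIrrTrace (fun x => φ (e x)) := by
      refine ⟨irrTrace_comp e, fun h => ?_⟩
      have h2 := irrTrace_comp e.symm h
      simpa using h2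
    have h3 : (∀ x : N₂, ∑ᶠ g : N₂, z₂ g * φ (g * x) = c * φ x) ↔
        ∀ x : N₁, ∑ᶠ g : N₁, z₁ g * φ (e (g * x)) = c * φ (e x) := by
      have h4 : ∀ x : N₁, ∑ᶠ g : N₁, z₁ g * φ (e (g * x)) = ∑ᶠ g : N₂, z₂ g * φ (g * e x) := by
        intro x
        rw [← finsum_comp_equiv e.toEquiv]
        refine finsum_congr fun g => ?_
        rw [map_mul, ← hz g]
        rfl
      constructor
      · intro h x
        rw [h4, h]
      · intro h x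
        have h5 := h (e.symm x)
        rw [h4, MulEquiv.apply_symm_apply] at h5
        exact h5
    rw [h1, hinv φ, h3]
  let E : TrM N₂ M₂ z₂ c ≃ TrM N₁ M₁ z₁ c :=
    (Equiv.arrowCongr e.symm.toEquiv (Equiv.refl F)).subtypeEquiv key
  unfold OrbL
  exact (Nat.card_congr (Quot.congr E fun φ φ' => hcj φ.1 φ'.1)).symm

theorem le_of {Γ : Type} [Group Γ] {G M H : Subgroup Γ} (h : G ⊔ (M ⊓ H) = M) : G ≤ M :=
  le_sup_left.trans h.le

theorem TRLO : S_TRLO := by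
  intro F _ Γ _ _ G M H _ _ z c hGM
  have hle : G.subgroupOf H ≤ M.subgroupOf H := fun x hx =>
    Subgroup.mem_subgroupOf.2 (le_of hGM (Subgroup.mem_subgroupOf.1 hx))
  unfold LsK
  rw [if_pos hGM, if_pos (by rw [inf_top_eq]; exact sup_eq_right.2 hle), Subgroup.card_top]
  congr 2
  let e : ↥(G ⊓ H) ≃* ↥(G.subgroupOf H ⊓ ⊤) :=
    { toFun := fun x => ⟨⟨x.1, x.2.2⟩, ⟨x.2.1, trivial⟩⟩
      invFun := fun y => ⟨y.1.1, ⟨y.2.1, y.1.2⟩⟩
      left_inv := fun _ => rfl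
      right_inv := fun _ => rfl
      map_mul' := fun _ _ => rfl }
  refine orbL_congr _ _ _ _ _ _ _ _ c e (fun _ => rfl) (fun φ => ⟨?_, ?_⟩)
    fun φ φ' => ⟨?_, ?_⟩
  · intro h g hg x y hxy
    exact h ⟨g, hg.2⟩ ⟨hg.1, trivial⟩ (e x) (e y) (Subtype.ext hxy)
  · intro h g hg x y hxy
    exact h g.1 ⟨hg.1, g.2⟩ (e.symm x) (e.symm y) (congrArg Subtype.val hxy)
  · rintro ⟨h, -, hc⟩
    exact ⟨h.1, h.2, fun x y hxy => hc (e x) (e y) (Subtype.ext hxy)⟩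
  · rintro ⟨h, hh, hc⟩
    exact ⟨⟨h, hh⟩, trivial, fun x y hxy =>
      hc (e.symm x) (e.symm y) (congrArg Subtype.val hxy)⟩

theorem orbW_congr (p : ℕ) {F : Type} [Field F] (red : integralClosure ℤ ℂ →+* F)
    {Γ₁ Γ₂ : Type} [Group Γ₁] [Group Γ₂] (M₁ J₁ Q₁ : Subgroup Γ₁) (M₂ J₂ Q₂ : Subgroup Γ₂)
    (z₁ : Γ₁ → F) (z₂ : Γ₂ → F) (c : F) (e : ↥(M₁ ⊓ J₁) ≃* ↥(M₂ ⊓ J₂))
    (hQ : ∀ x, e x ∈ Q₂.subgroupOf (M₂ ⊓ J₂) ↔ x ∈ Q₁.subgroupOf (M₁ ⊓ J₁))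
    (hz : ∀ x : ↥(M₁ ⊓ J₁), z₁ x = z₂ (e x))
    (hf : IsClassFun (fun x : ↥(M₂ ⊓ J₂) => z₂ x))
    (hcj : ∀ φ φ' : ↥(M₂ ⊓ J₂) → ℂ, (∃ h ∈ J₂, CjF h φ φ') ↔
      ∃ h ∈ J₁, CjF h (fun x => φ (e x)) (fun x => φ' (e x))) :
    OrbW p red M₁ J₁ Q₁ z₁ c = OrbW p red M₂ J₂ Q₂ z₂ c := by
  have key : ∀ ξ : ↥(M₂ ⊓ J₂) → ℂ,
      (IsWt p (Q₂.subgroupOf (M₂ ⊓ J₂)) ξ ∧ centralValue red ξ (fun x => z₂ x) = c) ↔
      (IsWt p (Q₁.subgroupOf (M₁ ⊓ J₁)) (fun x => ξ (e x)) ∧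
        centralValue red (fun x => ξ (e x)) (fun x => z₁ x) = c) := by
    intro ξ
    have e1 : (fun x : ↥(M₁ ⊓ J₁) => z₁ x) = fun x => (fun y : ↥(M₂ ⊓ J₂) => z₂ y) (e x) :=
      funext hz
    rw [isWt_iff e hQ, e1]
    refine and_congr_right fun a => ?_
    rw [centralValue_comp red e a.irr hf]
  let E : WtJ p red (M₂ ⊓ J₂) Q₂ z₂ c ≃ WtJ p red (M₁ ⊓ J₁) Q₁ z₁ c :=
    (Equiv.arrowCongr e.symm.toEquiv (Equiv.refl ℂ)).subtypeEquiv key
  unfold OrbW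
  exact (Nat.card_congr (Quot.congr E fun φ φ' => hcj φ.1 φ'.1)).symm

section sub

variable {Γ : Type} [Group Γ]

/-- the intersections of `M` with the normalizers correspond -/
def mEquiv (M H Q : Subgroup Γ) (hQ : Q ≤ H) :
    ↥(M ⊓ (H ⊓ Subgroup.normalizer (Q : Set Γ))) ≃*
      ↥(M.subgroupOf H ⊓ ((⊤ : Subgroup H) ⊓
        Subgroup.normalizer ((Q.subgroupOf H : Subgroup H) : Set H))) where
  toFun x := ⟨⟨x.1, x.2.2.1⟩, ⟨x.2.1, Subgroup.mem_top _, norm_fwd _ x.2.2.2⟩⟩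
  invFun x := ⟨x.1.1, ⟨x.2.1, x.1.2, norm_bwd hQ x.2.2.2⟩⟩
  left_inv _ := rfl
  right_inv _ := rfl
  map_mul' _ _ := rfl

theorem sup_iff' (G M H Q : Subgroup Γ) [G.Normal] (hGM : G ⊔ (M ⊓ H) = M) (hQ : Q ≤ H) :
    G.subgroupOf H ⊔ Q.subgroupOf H = M.subgroupOf H ↔ G ⊔ Q = M := by
  constructor
  · intro h
    refine le_antisymm (sup_le (le_of hGM) ?_) ?_
    · intro x hx
      have h1 : (⟨x, hQ hx⟩ : H) ∈ M.subgroupOf H := by
        rw [← h]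
        exact (le_sup_right : _ ≤ G.subgroupOf H ⊔ Q.subgroupOf H)
          (Subgroup.mem_subgroupOf.2 hx)
      exact Subgroup.mem_subgroupOf.1 h1
    · rw [← hGM]
      refine sup_le le_sup_left ?_
      rintro x ⟨hxM, hxH⟩
      have h1 : (⟨x, hxH⟩ : H) ∈ G.subgroupOf H ⊔ Q.subgroupOf H := by
        rw [h]
        exact Subgroup.mem_subgroupOf.2 hxM
      obtain ⟨y, hy, z, hz, hyz⟩ := Subgroup.mem_sup_of_normal_left.1 h1
      have h2 : (y : Γ) * z = x := congrArg Subtype.val hyz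
      rw [← h2]
      exact Subgroup.mul_mem_sup (Subgroup.mem_subgroupOf.1 hy) (Subgroup.mem_subgroupOf.1 hz)
  · intro h
    refine le_antisymm (sup_le ?_ ?_) ?_
    · exact fun x hx => Subgroup.mem_subgroupOf.2 (le_of hGM (Subgroup.mem_subgroupOf.1 hx))
    · exact fun x hx => Subgroup.mem_subgroupOf.2 (h.le
        ((le_sup_right : Q ≤ G ⊔ Q) (Subgroup.mem_subgroupOf.1 hx)))
    · rintro ⟨x, hx⟩ hxM
      have h1 : x ∈ G ⊔ Q := by
        rw [h]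
        exact Subgroup.mem_subgroupOf.1 hxM
      obtain ⟨y, hy, z, hz, hyz⟩ := Subgroup.mem_sup_of_normal_left.1 h1
      have hyH : y ∈ H := by
        have h2 : y = x * z⁻¹ := by rw [← hyz]; group
        rw [h2]
        exact H.mul_mem hx (H.inv_mem (hQ hz))
      have h3 : (⟨x, hx⟩ : H) = ⟨y, hyH⟩ * ⟨z, hQ hz⟩ := Subtype.ext hyz.symm
      rw [h3]
      exact Subgroup.mul_mem_sup (Subgroup.mem_subgroupOf.2 hy) (Subgroup.mem_subgroupOf.2 hz)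

end sub

theorem TRNO : S_TRNO := by
  intro p F _ red Γ _ _ G M H _ _ z c hGM hz
  unfold WsK
  have key : ∀ Q : Subgroup Γ, Q ≤ H →
      (if IsPGroup p Q ∧ Q ≤ H ∧ G ⊔ Q = M then
        (Nat.card ↥(H ⊓ Subgroup.normalizer (Q : Set Γ)) : ℤ) *
          OrbW p red M (H ⊓ Subgroup.normalizer (Q : Set Γ)) Q z c else 0) =
      (if IsPGroup p (Q.subgroupOf H) ∧ Q.subgroupOf H ≤ ⊤ ∧
          G.subgroupOf H ⊔ Q.subgroupOf H = M.subgroupOf H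
        then (Nat.card ↥((⊤ : Subgroup H) ⊓
            Subgroup.normalizer ((Q.subgroupOf H : Subgroup H) : Set H)) : ℤ) *
          OrbW p red (M.subgroupOf H) ((⊤ : Subgroup H) ⊓
            Subgroup.normalizer ((Q.subgroupOf H : Subgroup H) : Set H)) (Q.subgroupOf H)
            (fun x => z x) c else 0) := by
    intro Q hQ
    have hiff : (IsPGroup p Q ∧ Q ≤ H ∧ G ⊔ Q = M) ↔
        (IsPGroup p (Q.subgroupOf H) ∧ Q.subgroupOf H ≤ ⊤ ∧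
          G.subgroupOf H ⊔ Q.subgroupOf H = M.subgroupOf H) := by
      rw [pg_iff p H Q hQ, sup_iff' G M H Q hGM hQ]
      exact ⟨fun h => ⟨h.1, le_top, h.2.2⟩, fun h => ⟨h.1, hQ, h.2.2⟩⟩
    rw [if_congr hiff rfl rfl]
    refine if_congr Iff.rfl ?_ rfl
    have h1 : Nat.card ↥(H ⊓ Subgroup.normalizer (Q : Set Γ)) =
        Nat.card ↥((⊤ : Subgroup H) ⊓
            Subgroup.normalizer ((Q.subgroupOf H : Subgroup H) : Set H)) :=
      Nat.card_congr (nEquiv H Q hQ).toEquiv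
    have h2 : OrbW p red M (H ⊓ Subgroup.normalizer (Q : Set Γ)) Q z c =
        OrbW p red (M.subgroupOf H) ((⊤ : Subgroup H) ⊓
            Subgroup.normalizer ((Q.subgroupOf H : Subgroup H) : Set H)) (Q.subgroupOf H)
            (fun x => z x) c := by
      refine orbW_congr p red M (H ⊓ Subgroup.normalizer (Q : Set Γ)) Q (M.subgroupOf H)
        ((⊤ : Subgroup H) ⊓ Subgroup.normalizer ((Q.subgroupOf H : Subgroup H) : Set H))
        (Q.subgroupOf H) z (fun x => z x) c (mEquiv M H Q hQ) (fun x => Iff.rfl)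
        (fun x => rfl) ?_ fun φ φ' => ⟨?_, ?_⟩
      · intro g x
        exact hz g.1.1 g.1.2 x.1.1
      · rintro ⟨h, hh, hc⟩
        exact ⟨h.1, ⟨h.2, norm_bwd hQ hh.2⟩, fun x y hxy =>
          hc (mEquiv M H Q hQ x) (mEquiv M H Q hQ y) (Subtype.ext hxy)⟩
      · rintro ⟨h, hh, hc⟩
        exact ⟨⟨h, hh.1⟩, ⟨Subgroup.mem_top _, norm_fwd hh.1 hh.2⟩, fun x y hxy =>
          hc ((mEquiv M H Q hQ).symm x) ((mEquiv M H Q hQ).symm y)
            (congrArg Subtype.val hxy)⟩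
    rw [h1, h2]
  have hinj : Function.Injective (fun Q' : Subgroup H => Q'.map H.subtype) :=
    Subgroup.map_injective H.subtype_injective
  have hrange : ∀ Q : Subgroup Γ, Q ≤ H → (Q.subgroupOf H).map H.subtype = Q := fun Q hQ =>
    Subgroup.map_subgroupOf_eq_of_le hQ
  have hcomap : ∀ Q' : Subgroup H, (Q'.map H.subtype).subgroupOf H = Q' := fun Q' =>
    Subgroup.comap_map_eq_self_of_injective H.subtype_injective Q'
  set A : Subgroup Γ → ℤ := fun Q => if IsPGroup p Q ∧ Q ≤ H ∧ G ⊔ Q = M then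
        (Nat.card ↥(H ⊓ Subgroup.normalizer (Q : Set Γ)) : ℤ) *
          OrbW p red M (H ⊓ Subgroup.normalizer (Q : Set Γ)) Q z c else 0
    with hA
  set B : Subgroup H → ℤ := fun Q => if IsPGroup p Q ∧ Q ≤ ⊤ ∧
        G.subgroupOf H ⊔ Q = M.subgroupOf H then
        (Nat.card ↥(⊤ ⊓ Subgroup.normalizer (Q : Set H)) : ℤ) *
          OrbW p red (M.subgroupOf H) (⊤ ⊓ Subgroup.normalizer (Q : Set H)) Q
            (fun x => z x) c else 0
    with hB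
  have e1 : ∑ᶠ Q, A Q = ∑ᶠ Q ∈ Set.range (fun Q' : Subgroup H => Q'.map H.subtype), A Q := by
    refine finsum_congr fun Q => ?_
    by_cases hQ : Q ≤ H
    · have hm : Q ∈ Set.range (fun Q' : Subgroup H => Q'.map H.subtype) := ⟨_, hrange Q hQ⟩
      rw [finsum_eq_if, if_pos hm]
    · have h0 : A Q = 0 := by
        rw [hA]
        exact if_neg fun h => hQ h.2.1
      rw [h0, finsum_eq_if, ite_self]
  change ∑ᶠ Q, A Q = ∑ᶠ Q, B Q
  rw [e1, finsum_mem_range hinj]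
  refine finsum_congr fun Q' => ?_
  have h3 : Q'.map H.subtype ≤ H := Subgroup.map_subtype_le Q'
  have h4 := key _ h3
  rw [hcomap] at h4
  exact h4

end Pool.Agent.N973.ENTR
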