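import Pool.Agent.N587.IC.Stm
import Pool.Agent.H894R3.Ana

/-!
# Project IC (helper587), leaf AN: analytic sets are null-measurable (from `H894R3.Ana`)
-/

set_option autoImplicit false

namespace Pool.Agent.N973.IC

theorem t_AN : Pool.Agent.N587.IC.S_AN := by
  intro α _ _ _ _ μ _ S hS
  exact Pool.Agent.H894R3.Ana.analytic_nullMeasurable μ hS

end Pool.Agent.N973.IC
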